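import Pool.Agent.Lib.MP_fa364e_pr.Std.Final
import Pool.Agent.Lib.MP_fa364e_pr.Poi.Final

/-!
# The almost sure and the variance fluctuation exponents of first-passage percolation agree

Definitions used in the statement (all in the namespace `FPPX`):

* `Pool/Agent/Lib/MP_fa364e_pr/Std/Defs.lean`: `Edge`, `Joins`, `IsPath`, `pt` (passage time of
  lattice first-passage percolation);
* `Pool/Agent/Lib/MP_fa364e_pr/Sharp/Defs.lean`: `Conn`, `cluster`, `percTheta`, `pc` (critical
  probability of Bernoulli bond percolation on `ℤ^d`);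
* `Pool/Agent/Lib/MP_fa364e_pr/Std/Chi.lean`: `RR`, `latt`, `len`, `wet`, `limitShape`, `chiSet1`,
  `chiSet2`, `chi1`, `chi2`, `IsStdFPP`;
* `Pool/Agent/Lib/MP_fa364e_pr/Poi/Model.lean`: `IsPoisson`, `ept` (passage time of Euclidean
  first-passage percolation).

The first part of the theorem is about lattice first-passage percolation, for every law `F` with
an exponential moment and `F {0} < p_c(d)`. If `F` is not a point mass then `χ₁ = χ₂`. If `F` is a
point mass then all variances vanish, `χ₂ = -∞` and `χ₁ ≥ 0`. The second part is about Euclidean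
first-passage percolation, for every `α > 1`; `near ω x` is any selection of a particle nearest
to `x`.
-/

set_option autoImplicit false

open MeasureTheory ProbabilityTheory Filter Set FPPX
open scoped Topology

namespace Pool.Agent.Results.MP_fa364e_pr.ExponentsAgree

theorem result (d : ℕ) (hd : 2 ≤ d) :
    (∀ (F : Measure ℝ) [IsProbabilityMeasure F],
      (∃ γ : ℝ, 0 < γ ∧ Integrable (fun t => Real.exp (γ * t)) F) → F.real {0} < pc d →
      ∀ (Ω : Type*) [MeasurableSpace Ω] (P : Measure Ω) [IsProbabilityMeasure P]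
        (τ : Edge d → Ω → ℝ), IsStdFPP P F τ →
      ∃ μ : RR d → ℝ,
        (∀ u : RR d, ‖u‖ = 1 → 0 < μ u ∧ ∀ᵐ ω ∂P, Tendsto
          (fun n : ℕ => pt (fun e => τ e ω) 0 (latt ((n : ℝ) • u)) / n) atTop (𝓝 (μ u))) ∧
        ((∀ a : ℝ, F ≠ Measure.dirac a) →
          chi1 P (fun ω => wet (fun e => τ e ω)) μ =
            chi2 (len (d := d)) (fun x => variance (fun ω => pt (fun e => τ e ω) 0 x) P)) ∧
        (∀ a : ℝ, F = Measure.dirac a →
          0 ≤ chi1 P (fun ω => wet (fun e => τ e ω)) μ ∧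
            chi2 (len (d := d)) (fun x => variance (fun ω => pt (fun e => τ e ω) 0 x) P) = ⊥)) ∧
    (∀ α : ℝ, 1 < α →
      ∀ (Ω : Type*) [MeasurableSpace Ω] (P : Measure Ω) [IsProbabilityMeasure P]
        (Q : Ω → Set (RR d)) (near : Ω → RR d → RR d), IsPoisson P Q →
      (∀ᵐ ω ∂P, ∀ x, near ω x ∈ Q ω ∧ ∀ p ∈ Q ω, dist x (near ω x) ≤ dist x p) →
      ∃ μ : ℝ, 0 < μ ∧
        (∀ u : RR d, ‖u‖ = 1 → ∀ᵐ ω ∂P, Tendsto
          (fun n : ℕ => ept α (Q ω) (near ω 0) (near ω ((n : ℝ) • u)) / n) atTop (𝓝 μ)) ∧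
        chi1 P (fun ω t => {y | ept α (Q ω) (near ω 0) (near ω y) ≤ t}) (fun _ => μ) =
          chi2 (fun x : RR d => ‖x‖)
            (fun x => variance (fun ω => ept α (Q ω) (near ω 0) (near ω x)) P)) :=
  ⟨fun F _ hexp hpc _ _ _ _ _ h => std_main hd F hexp hpc h,
    fun _ hα _ _ _ _ _ _ h hn => poi_main hd hα h hn⟩

end Pool.Agent.Results.MP_fa364e_pr.ExponentsAgree
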